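import Pool.Agent.R57.Volt

/-!
For every `m ≥ 3` there is a finite graph that is 3-colourable, contains no induced 4-cycle, and has
two `m`-colourings which are not Kempe equivalent.

`KempeStep c c'` (from `Pool.Agent.H411R2.WSK.Defs`): the colouring `c'` arises from `c` by a single
Kempe change. In the graph constructed here two distinct non-adjacent vertices never have two
common neighbours, so it has no 4-cycle at all; one of the two colourings is Kempe frozen.
-/

set_option autoImplicit false

namespace Pool.Agent.Results.MP_de689f_co.FourCycleFree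

open Pool.Agent.H411R2.WSK

theorem result : ∀ m : ℕ, 3 ≤ m → ∃ (V : Type) (_ : Fintype V) (G : SimpleGraph V),
    G.Colorable 3 ∧ IsEmpty (SimpleGraph.cycleGraph 4 ↪g G) ∧
      ∃ c c' : G.Coloring (Fin m), ¬ Relation.ReflTransGen KempeStep c c' := by
  intro m hm
  obtain ⟨V, hV, G, h3, h4, h⟩ := Pool.Agent.R57.Volt.main m hm
  refine ⟨V, hV, G, h3, ⟨fun f => ?_⟩, h⟩
  have hadj : ∀ i j : Fin 4, (SimpleGraph.cycleGraph 4).Adj i j → G.Adj (f i) (f j) :=
    fun i j hij => f.map_adj_iff.2 hij
  exact h4 (f 0) (f 1) (f 2) (f 3) (hadj 0 1 (by decide)) (hadj 1 2 (by decide))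
    (hadj 2 3 (by decide)) (hadj 3 0 (by decide)) (fun h => absurd (f.injective h) (by decide))
    (fun h => absurd (f.injective h) (by decide))

end Pool.Agent.Results.MP_de689f_co.FourCycleFree
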