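import Pool.Agent.R57.AlphaTwo

/-!
If `G` is a finite `k`-colourable graph without an induced `3K₁` (three pairwise non-adjacent
vertices), then any two `(k + 1)`-colourings of `G` are Kempe equivalent.

`KempeStep c c'` (from `Pool.Agent.H411R2.WSK.Defs`): the colouring `c'` arises from `c` by a single
Kempe change.
-/

set_option autoImplicit false

namespace Pool.Agent.Results.MP_de689f_co.IndependenceTwo

open Pool.Agent.H411R2.WSK

theorem result : ∀ (V : Type) [Fintype V] (G : SimpleGraph V),
    IsEmpty ((⊥ : SimpleGraph (Fin 3)) ↪g G) → ∀ k : ℕ, G.Colorable k →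
      ∀ c c' : G.Coloring (Fin (k + 1)), Relation.ReflTransGen KempeStep c c' := by
  intro V _ G hG k hk c c'
  refine Pool.Agent.R57.A2.main ?_ k hk (Nat.lt_succ_self k) c c'
  intro x y z hxy hxz hyz
  by_contra hcon
  push Not at hcon
  obtain ⟨h1, h2, h3⟩ := hcon
  refine hG.elim' ⟨⟨![x, y, z], ?_⟩, ?_⟩
  · intro i j hij
    fin_cases i <;> fin_cases j <;> simp_all
  · intro i j
    fin_cases i <;> fin_cases j <;> simp [h1, h2, h3, mt SimpleGraph.Adj.symm h1,
      mt SimpleGraph.Adj.symm h2, mt SimpleGraph.Adj.symm h3]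

end Pool.Agent.Results.MP_de689f_co.IndependenceTwo
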